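import Pool.Agent.E870.SD.HalfFin

/-!
# Self-dual Chow-Kunneth decompositions from the lower half of a decomposition

`𝒱` is a class of smooth projective geometrically irreducible varieties over the field `k` closed
under products (for example all of them), `C` the Chow groups with rational coefficients (in the
form of their formal properties, `IsChowProj`) and `H` a Weil cohomology theory (`IsWeilProj`).
Let `X` be a variety of dimension `d`.

**Theorem.**
1. Let `p 0, …, p (d - 1)` be orthogonal idempotent correspondences which lift the Kunneth
   projectors of the degrees below `d`. If `ᵗ(p m) ∘ p n = 0` for all `m, n < d`, then `X` has a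
   self-dual Chow-Kunneth decomposition. Nothing is assumed on the compositions `p n ∘ ᵗ(p m)`, nor
   on the existence of lifts in the degrees `≥ d`.
2. If an idempotent correspondence `e` which acts on `H^*(X)` as the projection onto the sum of the
   `H^i(X)`, `i < d`, factors through sums of twists of motives of surfaces, then `X` has a self-dual
   Chow-Kunneth decomposition. Nothing is assumed on the middle part of `h(X)`.
3. Let `X` be a threefold for which correspondences which act as zero on `CH_0(X)` factor through
   surfaces (for complex threefolds this is the theorem of Bloch and Srinivas). If `X` has a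
   Chow-Kunneth decomposition `π` such that `π 0`, `π 1`, `π 2` act as zero on `CH_0(X)` (a part of
   Murre's conjecture (B)), then `X` has a self-dual one.

The known properties of divisors and surfaces which are used in 2. and 3. are in
`SurfaceProperties`.

## Proof

1. Let `E = ∑ p n` and `q n = p n ∘ (1 - ᵗE / 2)`. Then `q m ∘ q n = δ q m`, `q m ∘ ᵗ(q n) = 0` and
`ᵗ(q m) ∘ q n = 0`. 2. The idempotent `e` is the sum of orthogonal idempotents `e_w` which factor
through the parts of weight `w` of motives of surfaces; the `e_w` for `w ≥ d` are homologically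
trivial and are dropped, and no correspondence raises the weight of motives of surfaces, so
`ᵗ(e_w) ∘ e_w' = 0` for `w, w' < d`. 3. Take `e = π 0 + π 1 + π 2`.
-/

open CategoryTheory AlgebraicGeometry

set_option autoImplicit false

universe u v w

namespace Pool.Agent.Results.MP_8a7054_ag.LowerHalf

open Pool.Agent.H914 Pool.Agent.H914.VarClass.Obj Pool.Agent.W492.BB Pool.Agent.W550.Corr
  Pool.Agent.TH133 Pool.Agent.X308.S Pool.Agent.E870.SD

/-- Self-dual Chow-Kunneth decompositions from the lower half. -/
theorem result {k : Type u} [Field k] {𝒱 : VarClass k} (C : TheoryData.{u, v, 0} 𝒱 ℚ)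
    [IsChowProj C] {K : Type w} [Field K] (H : WeilTheoryData.{u, v, w} C K) [IsWeilProj H]
    (X : 𝒱.Obj) :
    (∀ p : ℕ → C.A (X.prod X), IsLowerHalf H X p →
      (∀ m < X.dim, ∀ n < X.dim, C.comp (p n) (tp C (p m)) = 0) →
      ∃ π, IsCK H X π ∧ IsSelfDual C (X := X) π) ∧
    (SurfaceProperties H → ∀ e : C.A (X.prod X), ViaSurfaces e → C.comp e e = e →
      (∀ (m : ℤ) (a : H.A X), H.Deg m a → H.act (H.cl e) a = if m < X.dim then a else 0) →
      ∃ π, IsCK H X π ∧ IsSelfDual C (X := X) π) ∧
    (SurfaceProperties H → X.dim = 3 →
      (∀ z : C.A (X.prod X), C.Deg 3 z → (∀ x : C.A X, C.Deg 3 x → C.act z x = 0) →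
        ViaSurfaces z) →
      ∀ p : ℕ → C.A (X.prod X), IsCK H X p →
        (∀ i < 3, ∀ x : C.A X, C.Deg 3 x → C.act (p i) x = 0) →
        ∃ π, IsCK H X π ∧ IsSelfDual C (X := X) π) :=
  ⟨fun _ hp h => selfDual_of_lower' hp h, fun hS _ he hee h => selfDual_of_surfaces hS hee he h,
    fun hS hd hBS _ hπ h0 => selfDual_of_threefold hS hd hBS hπ h0⟩

end Pool.Agent.Results.MP_8a7054_ag.LowerHalf
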