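import Pool.Agent.E870.SD.Fin

/-!
# Self-dual Chow-Kunneth decompositions and direct factors with nilpotent complement

`𝒱` is a class of smooth projective geometrically irreducible varieties over the field `k` closed
under products (for example all of them), `C` the Chow groups with rational coefficients (in the
form of their formal properties, `IsChowProj`) and `H` a Weil cohomology theory (`IsWeilProj`).

Let `X` and `Y` be varieties of the same dimension and let `a : h(X) → h(Y)` satisfy `q ᵗa ∘ a = 1`
for a rational number `q`, so that `h(Y) = h(X) ⊥ N` is an orthogonal decomposition. Suppose that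
the homologically trivial endomorphisms of the complement `N` form a nilpotent ideal (this is so if
`N` is finite-dimensional in the sense of Kimura); nothing is assumed about `h(X)`.

**Theorem.**
1. `Y` has a self-dual Chow-Kunneth decomposition if and only if `X` has one and the Kunneth
   components of `Y` are algebraic.
2. This applies to `a = f^*` for morphisms `f : Y → X` of degree `N ≠ 0`, for example to the blow-up
   of `X` in a centre with a finite-dimensional motive.
3. The existence of a self-dual Chow-Kunneth decomposition is invariant under chains of such
   relations for which the Kunneth components of `Y` are algebraic if those of `X` are (so, for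
   instance, under blow-ups and blow-downs in points and curves, which by weak factorization
   connect any two birational smooth projective threefolds over a field of characteristic zero).

## Proof

A self-dual Chow-Kunneth decomposition is the same as a self-correspondence `D` of degree zero with
`ᵗD = -D` which acts on `H^m` as multiplication by `m - d` and for which `∏ (D - j)`, `-d ≤ j ≤ d`, is
nilpotent: the projectors are polynomials in `D`. For `D` on `Y` let `D_X = q ᵗa ∘ D ∘ a`. The
defect of multiplicativity of this compression is a sum of products of homologically trivial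
correspondences `h(X) → N → h(X)`, and products of `n + 1` such correspondences vanish if the
products of `n` homologically trivial endomorphisms of `N` vanish. So `∏ (D_X - j)` is nilpotent.
Conversely, one adds to `q a ∘ D_X ∘ ᵗa` a skew-symmetric endomorphism of `N` which acts on `H^m(N)` as
multiplication by `m - d`.
-/

open CategoryTheory AlgebraicGeometry

set_option autoImplicit false

universe u v w

namespace Pool.Agent.Results.MP_8a7054_ag.NilpotentComplement

open Pool.Agent.H914 Pool.Agent.H914.VarClass.Obj Pool.Agent.W492.BB Pool.Agent.W550.Corr
  Pool.Agent.TH133 Pool.Agent.E870.SD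

/-- Self-dual Chow-Kunneth decompositions of `h(Y) = h(X) ⊥ N` and of `h(X)`, if the homologically
trivial endomorphisms of `N` are nilpotent. -/
theorem result {k : Type u} [Field k] {𝒱 : VarClass k} (C : TheoryData.{u, v, 0} 𝒱 ℚ)
    [IsChowProj C] {K : Type w} [Field K] (H : WeilTheoryData.{u, v, w} C K) [IsWeilProj H] :
    (∀ X Y : 𝒱.Obj, IsNilFactor H X Y →
      (HasSelfDualCK H Y ↔ HasSelfDualCK H X ∧ KunnethStd H Y)) ∧
    (∀ (X Y : 𝒱.Obj) (f : Y ⟶ X) (N : ℚ), Y.dim = X.dim → N ≠ 0 → C.push f 1 = N • 1 →
      HomNilpotent H Y (dg C Y - N⁻¹ • C.comp (C.graph f) (C.cograph f)) →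
      (HasSelfDualCK H Y ↔ HasSelfDualCK H X ∧ KunnethStd H Y)) ∧
    (∀ X Y : 𝒱.Obj, Relation.EqvGen (fun X Y : 𝒱.Obj => IsNilFactor H X Y ∧
        (KunnethStd H X → KunnethStd H Y)) X Y →
      (HasSelfDualCK H X ↔ HasSelfDualCK H Y)) :=
  ⟨fun _ _ h => iff_of_nilFactor h, fun _ _ f _ hd hN hf h =>
    iff_of_nilFactor (isNilFactor_of_cover f hd hN hf h), fun _ _ h => iff_of_chain h⟩

end Pool.Agent.Results.MP_8a7054_ag.NilpotentComplement
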